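import Pool.Agent.Q284.CT.Eul

/-!
# Absolute convergence of Euler products whose first power sums are small
-/

set_option autoImplicit false

open Finset Polynomial ComplexConjugate

namespace Pool.Agent.Q284.T3

open Pool.Agent.Q284.CT (Places summable_deg exp_loc)

theorem conv {V : Type} {q A : ℝ} {deg : V → ℕ} {pl : ℕ → Finset V} (hq : 2 ≤ q) (hA : 1 ≤ A)
    (hpl : Places q A deg pl) {Y : Type} [Fintype Y] (γ : V → Y → ℂ) {B lm ϑ σ : ℝ} {N : ℕ} (hB : 0 ≤ B)
    (h1 : ∀ (v : V) (k : ℕ), 1 ≤ k → k < N → ‖∑ y, γ v y ^ k‖ ≤ B * q ^ (-(lm * deg v)))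
    (h2 : ∀ (v : V) (y : Y), ‖γ v y‖ ≤ q ^ (ϑ * deg v)) (z : V → ℂ) (hz : ∀ v, ‖z v‖ ≤ q ^ (-(σ * deg v)))
    (hσ : 0 < σ) (hσ1 : 1 < σ + lm) (hσ0 : ϑ < σ) (hσ2 : 1 < N * (σ - ϑ)) :
    Summable (fun v : V => ‖∏ y, (1 - γ v y * z v)⁻¹ - 1‖) := by
  classical
  have hq0 : 0 < q := by linarith
  have hq1 : 1 < q := by linarith
  set r : ℝ := q ^ (-(σ + lm)) with hr
  set ρ : ℝ := q ^ (ϑ - σ) with hρ
  have hr0 : 0 < r := Real.rpow_pos_of_pos hq0 _
  have hρ0 : 0 < ρ := Real.rpow_pos_of_pos hq0 _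
  have hρ1 : ρ < 1 := Real.rpow_lt_one_of_one_lt_of_neg hq1 (by linarith)
  have hr1 : r ≤ 1 := Real.rpow_le_one_of_one_le_of_nonpos hq1.le (by linarith)
  have hqr : q * r < 1 := by
    rw [hr]
    nth_rewrite 1 [← Real.rpow_one q]
    rw [← Real.rpow_add hq0]
    exact Real.rpow_lt_one_of_one_lt_of_neg hq1 (by linarith)
  have hqρ : q * ρ ^ N < 1 := by
    rw [hρ, ← Real.rpow_natCast, ← Real.rpow_mul hq0.le]
    nth_rewrite 1 [← Real.rpow_one q]
    rw [← Real.rpow_add hq0]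
    exact Real.rpow_lt_one_of_one_lt_of_neg hq1 (by nlinarith)
  have s1 := summable_deg hq hA hpl (r := r) hr0.le hqr
  have s2 := summable_deg hq hA hpl (r := ρ ^ N) (by positivity) hqρ
  set C1 : ℝ := B * 2 ^ N * 2 with hC1
  set C2 : ℝ := (Fintype.card Y : ℝ) * (ρ⁻¹) ^ N * (1 - ρ)⁻¹ with hC2
  have hρ2 : 0 < 1 - ρ := by linarith
  have hC10 : 0 ≤ C1 := by positivity
  have hC20 : 0 ≤ C2 := by positivity
  have key : ∀ v : V, ‖∏ y, (1 - γ v y * z v)⁻¹ - 1‖ ≤
      (C1 * r ^ deg v + C2 * (ρ ^ N) ^ deg v) * Real.exp (C1 + C2) := by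
    intro v
    have hd := hpl.pos v
    have hdR : (1 : ℝ) ≤ deg v := by exact_mod_cast hd
    have hρv : q ^ (ϑ * deg v) * q ^ (-(σ * deg v)) = ρ ^ deg v := by
      rw [hρ, ← Real.rpow_add hq0, ← Real.rpow_natCast, ← Real.rpow_mul hq0.le]
      congr 1
      ring
    have hrv : q ^ (-(lm * deg v)) * q ^ (-(σ * deg v)) = r ^ deg v := by
      rw [hr, ← Real.rpow_add hq0, ← Real.rpow_natCast, ← Real.rpow_mul hq0.le]
      congr 1
      ring
    have hzq1 : q ^ (-(σ * deg v)) ≤ 1 := by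
      apply Real.rpow_le_one_of_one_le_of_nonpos hq1.le
      have : 0 ≤ σ * deg v := by positivity
      linarith
    have hzq0 : 0 ≤ q ^ (-(σ * deg v)) := by positivity
    obtain ⟨Λ, e1, e2⟩ := exp_loc (γ v) (w := z v) (by
      intro y
      rw [norm_mul]
      calc ‖γ v y‖ * ‖z v‖ ≤ q ^ (ϑ * deg v) * q ^ (-(σ * deg v)) :=
            mul_le_mul (h2 v y) (hz v) (norm_nonneg _) (by positivity)
        _ = ρ ^ deg v := hρv
        _ < 1 := pow_lt_one₀ hρ0.le hρ1 (by omega))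
    have hg1 : HasSum (fun k : ℕ => B * r ^ deg v * 2 ^ N * (1 / 2 : ℝ) ^ k) (C1 * r ^ deg v) := by
      have := (hasSum_geometric_of_lt_one (r := (1 / 2 : ℝ)) (by norm_num) (by norm_num)).mul_left
        (B * r ^ deg v * 2 ^ N)
      refine (congrArg (fun x => HasSum (fun k : ℕ => B * r ^ deg v * 2 ^ N * (1 / 2 : ℝ) ^ k) x) ?_).mp this
      rw [hC1]
      norm_num
      ring
    have hg2 : HasSum (fun k : ℕ => (Fintype.card Y : ℝ) * (ρ ^ N) ^ deg v * (ρ⁻¹) ^ N * ρ ^ k)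
        (C2 * (ρ ^ N) ^ deg v) := by
      have := (hasSum_geometric_of_lt_one hρ0.le hρ1).mul_left
        ((Fintype.card Y : ℝ) * (ρ ^ N) ^ deg v * (ρ⁻¹) ^ N)
      refine (congrArg (fun x => HasSum (fun k : ℕ => (Fintype.card Y : ℝ) * (ρ ^ N) ^ deg v * (ρ⁻¹) ^ N * ρ ^ k)
        x) ?_).mp this
      rw [hC2]
      ring
    have hΛ : ‖Λ‖ ≤ C1 * r ^ deg v + C2 * (ρ ^ N) ^ deg v := by
      refine HasSum.norm_le_of_bounded e1 (hg1.add hg2) ?_
      intro k
      have hA1 : 0 ≤ B * r ^ deg v * 2 ^ N * (1 / 2 : ℝ) ^ k := by positivity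
      have hA2 : 0 ≤ (Fintype.card Y : ℝ) * (ρ ^ N) ^ deg v * (ρ⁻¹) ^ N * ρ ^ k := by positivity
      rcases Nat.eq_zero_or_pos k with hk | hk
      · rw [hk]
        simp only [CharP.cast_eq_zero, div_zero, norm_zero]
        rw [hk] at hA1 hA2
        linarith
      · have hkR : (1 : ℝ) ≤ k := by exact_mod_cast hk
        rw [norm_div, norm_mul, norm_pow, Complex.norm_natCast]
        refine (div_le_self (by positivity) hkR).trans ?_
        rcases lt_or_ge k N with hkN | hkN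
        · have e3 : ‖z v‖ ^ k ≤ q ^ (-(σ * deg v)) := by
            calc ‖z v‖ ^ k ≤ (q ^ (-(σ * deg v))) ^ k := pow_le_pow_left₀ (norm_nonneg _) (hz v) k
              _ ≤ (q ^ (-(σ * deg v))) ^ 1 := pow_le_pow_of_le_one hzq0 hzq1 hk
              _ = _ := pow_one _
          have e4 : (1 : ℝ) ≤ 2 ^ N * (1 / 2 : ℝ) ^ k := by
            have : (2 : ℝ) ^ N = 2 ^ (N - k) * 2 ^ k := by rw [← pow_add]; congr 1; omega
            rw [this, mul_assoc, ← mul_pow]
            norm_num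
            exact one_le_pow₀ (by norm_num)
          calc ‖∑ y, γ v y ^ k‖ * ‖z v‖ ^ k ≤ (B * q ^ (-(lm * deg v))) * q ^ (-(σ * deg v)) :=
                mul_le_mul (h1 v k hk hkN) e3 (by positivity) (by positivity)
            _ = B * r ^ deg v * 1 := by rw [mul_assoc, hrv, mul_one]
            _ ≤ B * r ^ deg v * (2 ^ N * (1 / 2 : ℝ) ^ k) :=
                mul_le_mul_of_nonneg_left e4 (by positivity)
            _ = B * r ^ deg v * 2 ^ N * (1 / 2 : ℝ) ^ k := by ring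
            _ ≤ _ := by linarith
        · have e3 : ‖∑ y, γ v y ^ k‖ ≤ (Fintype.card Y : ℝ) * (q ^ (ϑ * deg v)) ^ k := by
            refine (norm_sum_le _ _).trans ?_
            have : ∀ y ∈ (univ : Finset Y), ‖γ v y ^ k‖ ≤ (q ^ (ϑ * deg v)) ^ k := by
              intro y _
              rw [norm_pow]
              exact pow_le_pow_left₀ (norm_nonneg _) (h2 v y) k
            refine (sum_le_card_nsmul _ _ _ this).trans ?_
            rw [card_univ, nsmul_eq_mul]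
          have e4 : ‖z v‖ ^ k ≤ (q ^ (-(σ * deg v))) ^ k := pow_le_pow_left₀ (norm_nonneg _) (hz v) k
          have e5 : (ρ ^ deg v) ^ k ≤ (ρ ^ N) ^ deg v * ρ ^ (k - N) := by
            rw [← pow_mul, ← pow_mul, ← pow_add]
            apply pow_le_pow_of_le_one hρ0.le hρ1.le
            obtain ⟨m, rfl⟩ : ∃ m, k = N + m := ⟨k - N, by omega⟩
            obtain ⟨d, hd'⟩ : ∃ d, deg v = d + 1 := ⟨deg v - 1, by omega⟩
            rw [hd', Nat.add_sub_cancel_left]
            nlinarith [Nat.zero_le (d * m)]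
          have e6 : ρ ^ (k - N) = (ρ⁻¹) ^ N * ρ ^ k := by
            have : ρ ^ k = ρ ^ N * ρ ^ (k - N) := by rw [← pow_add]; congr 1; omega
            rw [this, ← mul_assoc, ← mul_pow, inv_mul_cancel₀ hρ0.ne', one_pow, one_mul]
          calc ‖∑ y, γ v y ^ k‖ * ‖z v‖ ^ k ≤
                ((Fintype.card Y : ℝ) * (q ^ (ϑ * deg v)) ^ k) * (q ^ (-(σ * deg v))) ^ k :=
                mul_le_mul e3 e4 (by positivity) (by positivity)
            _ = (Fintype.card Y : ℝ) * (ρ ^ deg v) ^ k := by rw [mul_assoc, ← mul_pow, hρv]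
            _ ≤ (Fintype.card Y : ℝ) * ((ρ ^ N) ^ deg v * ρ ^ (k - N)) :=
                mul_le_mul_of_nonneg_left e5 (by positivity)
            _ = (Fintype.card Y : ℝ) * (ρ ^ N) ^ deg v * (ρ⁻¹) ^ N * ρ ^ k := by rw [e6]; ring
            _ ≤ _ := by linarith
    have hΛ2 : ‖Λ‖ ≤ C1 + C2 := by
      refine hΛ.trans (add_le_add ?_ ?_)
      · calc C1 * r ^ deg v ≤ C1 * 1 := mul_le_mul_of_nonneg_left (pow_le_one₀ hr0.le hr1) hC10
          _ = C1 := mul_one _
      · calc C2 * (ρ ^ N) ^ deg v ≤ C2 * 1 :=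
              mul_le_mul_of_nonneg_left (pow_le_one₀ (by positivity) (pow_le_one₀ hρ0.le hρ1.le)) hC20
          _ = C2 := mul_one _
    rw [← e2]
    have h5 := Complex.norm_exp_sub_sum_le_norm_mul_exp Λ 1
    simp only [range_one, sum_singleton, pow_zero, Nat.factorial_zero, Nat.cast_one, div_one, pow_one] at h5
    refine h5.trans ?_
    exact mul_le_mul hΛ (Real.exp_le_exp.2 hΛ2) (Real.exp_pos _).le (by positivity)
  refine Summable.of_nonneg_of_le (fun _ => norm_nonneg _) key ?_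
  exact ((s1.mul_left C1).add (s2.mul_left C2)).mul_right _

end Pool.Agent.Q284.T3
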