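import Pool.Agent.Q284.T3.Tri
import Pool.Agent.Q284.T3.Conv
import Pool.Agent.Q284.CT.Hay
import Pool.Agent.Q284.GE.All
import Pool.Agent.Q284.GE.Lev

/-!
# Project T3: the `L`-functions of the exterior powers `Λ^k Π`, `k ≤ K`, and the exponent `1/(2K)` (assembly)
-/

set_option autoImplicit false

open Finset Polynomial ComplexConjugate

namespace Pool.Agent.Q284.T3

open Pool.Agent.Q284.PS (Prim Hay CM PD PI qq Place absPow Nice norm_le_one)
open Pool.Agent.Q284.GE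

section Defs

variable {F : Type} [Field F] [Fintype F] {g : ℕ}

/-- the Satake parameters `|P|^θ(P) β_j`, `|P|^(-θ(P)) β_j` of `Π_P` -/
noncomputable def sat (θ : F[X] → ℝ) (β : F[X] → Fin g → ℂ) (P : F[X]) : Fin g ⊕ Fin g → ℂ :=
  dbl ((Fintype.card F : ℝ) ^ (θ P * P.natDegree)) (β P)

/-- at all places `|β_j| = 1`, `∏ β_j = 1`, and the `β_j` are closed under conjugation -/
def Classes (β : F[X] → Fin g → ℂ) : Prop :=
  ∀ P : F[X], P.Monic → Irreducible P → (∀ j, ‖β P j‖ = 1) ∧ ∏ j, β P j = 1 ∧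
    ∀ w : ℂ, ∏ j, (1 - conj (β P j) * w) = ∏ j, (1 - β P j * w)

/-- the local factor at `P` of `L(s, Λ^k Π ⊗ χ)` -/
noncomputable def extFactor (θ : F[X] → ℝ) (β : F[X] → Fin g → ℂ) (k : ℕ) (χ : F[X] → ℂ) (s : ℂ)
    (P : Place F) : ℂ :=
  ∏ S ∈ powersetCard k (univ : Finset (Fin g ⊕ Fin g)), (1 - (∏ j ∈ S, sat θ β P.1 j) * (χ P.1 * absPow P.1 s))⁻¹

open Classical in
/-- the local factor at `P` of `L(s, Λ^(k_1) Π × ... × Λ^(k_r) Π ⊗ χ)` -/
noncomputable def prodFactor (θ : F[X] → ℝ) (β : F[X] → Fin g → ℂ) {r : ℕ} (k : Fin r → ℕ) (χ : F[X] → ℂ) (s : ℂ)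
    (P : Place F) : ℂ :=
  ∏ S ∈ Fintype.piFinset (fun i => powersetCard (k i) (univ : Finset (Fin g ⊕ Fin g))),
    (1 - (∏ i, ∏ j ∈ S i, sat θ β P.1 j) * (χ P.1 * absPow P.1 s))⁻¹

end Defs

/-- the final statement -/
def ExtStm : Prop := ∀ (K g : ℕ) (δ : ℝ), 1 ≤ K → 4 * K < g → 2 < δ * g → ∃ M₀ : ℕ, 3 ≤ M₀ ∧
  ∀ (F : Type) [Field F] [Fintype F] (θ : F[X] → ℝ), (∀ P, 0 ≤ θ P ∧ θ P ≤ 1 / (2 * K) - δ) →
  ∀ ν M : ℕ, 9 ≤ ν → M₀ ≤ M → ∀ (D : ℕ → (F[X] → ℂ) → ℕ) (ε : ℕ → (F[X] → ℂ) → ℂ),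
  (∀ k : ℕ, 1 ≤ k → k ≤ K → ∀ (Q : F[X]) (l : ℕ) (χ : F[X] → ℂ), Prim Q l χ →
    ν * (Q.natDegree + max M (l + 1) - 2) ≤ D k χ ∧ D k (fun f => conj (χ f)) = D k χ) →
  (∀ k : ℕ, 1 ≤ k → k ≤ K → ∀ χ, ‖ε k χ‖ = 1 ∧ ε k (fun f => conj (χ f)) = conj (ε k χ)) →
  ∃ β : F[X] → Fin g → ℂ, Classes β ∧
    (∀ (k : ℕ), 1 ≤ k → k ≤ K → ∀ (Q : F[X]) (l : ℕ) (χ : F[X] → ℂ), Prim Q l χ → ∃ L : ℂ → ℂ,
      Nice (Fintype.card F) (D k χ) (ε k χ) L ∧ RiemannHypothesis L ∧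
      ∀ s : ℂ, 1 - 9 / 10 * (1 / 2 - 4 / (ν : ℝ)) < s.re → 1 - K * δ < s.re → HasProd (extFactor θ β k χ s) (L s)) ∧
    ∀ (r : ℕ) (k : Fin r → ℕ), 2 ≤ r → (∀ i, 1 ≤ k i) → ∑ i, k i ≤ K →
      ∀ (Q : F[X]) (l : ℕ) (χ : F[X] → ℂ), Prim Q l χ → ∀ s : ℂ, 1 / 2 ≤ s.re →
        1 - 9 / 5 * (1 / 2 - 4 / (ν : ℝ)) < s.re → Summable (fun P : Place F => ‖prodFactor θ β k χ s P - 1‖)

theorem norm_dbl {g : ℕ} {u : ℝ} (hu : 1 ≤ u) {β : Fin g → ℂ} (hβ : ∀ j, ‖β j‖ = 1) (j : Fin g ⊕ Fin g) :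
    ‖dbl u β j‖ ≤ u := by
  have hu0 : 0 < u := by linarith
  have hui : u⁻¹ ≤ 1 := inv_le_one_of_one_le₀ hu
  rcases j with j | j
  · show ‖(u : ℂ) * β j‖ ≤ u
    rw [norm_mul, hβ j, mul_one, Complex.norm_real, Real.norm_eq_abs, abs_of_pos hu0]
  · show ‖((u⁻¹ : ℝ) : ℂ) * β j‖ ≤ u
    rw [norm_mul, hβ j, mul_one, Complex.norm_real, Real.norm_eq_abs, abs_of_pos (inv_pos.2 hu0)]
    linarith

theorem norm_prod_dbl {g : ℕ} {u : ℝ} (hu : 1 ≤ u) {β : Fin g → ℂ} (hβ : ∀ j, ‖β j‖ = 1)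
    (S : Finset (Fin g ⊕ Fin g)) : ‖∏ j ∈ S, dbl u β j‖ ≤ u ^ S.card := by
  rw [norm_prod, ← prod_const]
  exact prod_le_prod (fun _ _ => norm_nonneg _) (fun j _ => norm_dbl hu hβ j)

theorem t_ext (hENG : ENG) : ExtStm := by
  classical
  intro K g δ hK hg hδg
  have hg0 : (0 : ℝ) < g := by exact_mod_cast (by omega : 0 < g)
  have hg1 : (1 : ℝ) ≤ g := by exact_mod_cast (by omega : 1 ≤ g)
  have hK0 : (0 : ℝ) < K := by exact_mod_cast (by omega : 0 < K)
  have hδ : 0 < δ := by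
    by_contra h
    have : δ * g ≤ 0 := mul_nonpos_of_nonpos_of_nonneg (by linarith) hg0.le
    linarith
  set ϑ : ℝ := 1 / 2 - K * δ with hϑ
  have hKδ : 0 < K * δ := mul_pos hK0 hδ
  have hKϑ : (K : ℝ) * (1 / (2 * K) - δ) = ϑ := by
    rw [hϑ]
    field_simp
  rcases lt_or_ge ϑ 0 with hneg | hpos
  · refine ⟨3, le_rfl, ?_⟩
    intro F _ _ θ hθ
    exfalso
    have h1 := hθ 0
    have h2 : 0 ≤ (K : ℝ) * (1 / (2 * K) - δ) := mul_nonneg hK0.le (h1.1.trans h1.2)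
    linarith
  set N : ℕ := max 3 (⌊1 / (K * δ)⌋₊ + 1) with hN
  have hN3 : 3 ≤ N := le_max_left _ _
  have hNK : 1 < N * (1 / 2 - ϑ) := by
    have h1 : 1 / (K * δ) < N := by
      have h2 := Nat.lt_floor_add_one (1 / (K * δ))
      have h3 : ((⌊1 / (K * δ)⌋₊ + 1 : ℕ) : ℝ) ≤ N := by exact_mod_cast le_max_right _ _
      push_cast at h3
      linarith
    rw [div_lt_iff₀ hKδ] at h1
    have h2 : (1 : ℝ) / 2 - ϑ = K * δ := by rw [hϑ]; ring
    rw [h2]
    exact h1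
  have hNg : ∀ l : ℕ, l < N → 2 * (l * K) < g := by
    intro l hl
    rcases lt_or_ge l 3 with h | h
    · nlinarith
    · have h1 : l < ⌊1 / (K * δ)⌋₊ + 1 := by
        rcases lt_max_iff.1 (hN ▸ hl) with h2 | h2
        · omega
        · exact h2
      have h2 : (l : ℝ) ≤ 1 / (K * δ) := (Nat.le_floor_iff (by positivity)).1 (by omega)
      rw [le_div_iff₀ hKδ] at h2
      have h3 : 2 * ((l : ℝ) * K) < g := by
        have h4 : 2 * ((l : ℝ) * K) * δ ≤ 2 := by nlinarith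
        by_contra h5
        rw [not_lt] at h5
        have : (g : ℝ) * δ ≤ 2 * ((l : ℝ) * K) * δ := mul_le_mul_of_nonneg_right h5 hδ.le
        nlinarith
      exact_mod_cast h3
  set B : ℝ := 2 * (K + 1) * (((g : ℝ) + 1) ^ N) ^ 2 + 4 ^ g with hB
  have hB1 : 1 ≤ B := by
    have h1 : (1 : ℝ) ≤ 4 ^ g := one_le_pow₀ (by norm_num)
    have h2 : 0 ≤ 2 * ((K : ℝ) + 1) * (((g : ℝ) + 1) ^ N) ^ 2 := by positivity
    linarith
  set r₀ : ℝ := 1 / (4 * g) with hr₀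
  have hr0 : 0 < r₀ := by positivity
  have hr1 : r₀ ≤ 1 := by
    rw [hr₀, div_le_one (by positivity)]
    linarith
  have hpar : Par r₀ B ϑ N := ⟨hr0, by linarith, hpos, hN3, hNK⟩
  obtain ⟨M₀, hM3, hENG⟩ := hENG r₀ B ϑ N hpar hr1
  refine ⟨M₀, hM3, ?_⟩
  intro F _ _ θ hθ ν M hν hM D ε hD hε
  have hq2 := two_le_qq (F := F)
  have hq0 : 0 < qq F := by linarith
  have hq1 : 1 ≤ qq F := by linarith
  let u : F[X] → ℝ := fun P => qq F ^ (θ P * P.natDegree)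
  have hu1 : ∀ P, 1 ≤ u P := by
    intro P
    apply Real.one_le_rpow hq1
    have := (hθ P).1
    positivity
  have hu0 : ∀ P, 0 < u P := fun P => lt_of_lt_of_le one_pos (hu1 P)
  have huK : ∀ (P : F[X]) (n k : ℕ), n ≤ K → (u P ^ n) ^ k ≤ qq F ^ (ϑ * (k * P.natDegree)) := by
    intro P n k hn
    calc (u P ^ n) ^ k ≤ (u P ^ K) ^ k :=
          pow_le_pow_left₀ (pow_nonneg (hu0 P).le n) (pow_le_pow_right₀ (hu1 P) hn) k
      _ = qq F ^ (θ P * P.natDegree * K * k) := by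
          show ((qq F ^ (θ P * P.natDegree)) ^ K) ^ k = _
          rw [← Real.rpow_natCast (qq F ^ (θ P * P.natDegree)) K, ← Real.rpow_mul hq0.le, ← Real.rpow_natCast,
            ← Real.rpow_mul hq0.le]
      _ ≤ _ := by
          apply Real.rpow_le_rpow_of_exponent_le hq1
          have h1 := (hθ P).2
          have h2 : (0 : ℝ) ≤ (k : ℝ) * P.natDegree := by positivity
          have h3 : (K : ℝ) * θ P ≤ ϑ := by
            rw [← hKϑ]
            exact mul_le_mul_of_nonneg_left h1 hK0.le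
          calc θ P * P.natDegree * K * k = K * θ P * (k * P.natDegree) := by ring
            _ ≤ ϑ * (k * P.natDegree) := mul_le_mul_of_nonneg_right h3 h2
  -- the classes
  let ex : (Fin K → ℝ) → ℕ → ℝ := fun x k => if h : k - 1 < K then x ⟨k - 1, h⟩ else 0
  have hex1 : ∀ (x : Fin K → ℝ) (i : Fin K), ex x (i.1 + 1) = x i := by
    intro x i
    show (if h : i.1 + 1 - 1 < K then x ⟨i.1 + 1 - 1, h⟩ else 0) = x i
    rw [dif_pos (by have := i.2; omega)]
    congr 1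
  have hex2 : ∀ (x : Fin K → ℝ) (t : ℝ), (∀ i, |x i| ≤ t) → ∀ k : ℕ, 1 ≤ k → k ≤ K → |ex x k| ≤ t := by
    intro x t hx k h1 h2
    have := hx ⟨k - 1, by omega⟩
    rw [← hex1 x ⟨k - 1, by omega⟩] at this
    have e : k - 1 + 1 = k := by omega
    simp only [e] at this
    exact this
  have hcls : ∀ (P : F[X]) (x : Fin K → ℝ), ∃ β : Fin g → ℂ, (∀ i, |x i| ≤ r₀) → Cls g K (u P) (ex x) β := by
    intro P x
    by_cases h : ∀ i, |x i| ≤ r₀
    · obtain ⟨β, h1⟩ := cls hK (by omega) (hu1 P) (hex2 x r₀ h)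
      exact ⟨β, fun _ => h1⟩
    · exact ⟨fun _ => 1, fun h' => absurd h' h⟩
  choose S hS using hcls
  let p : Fin K → F[X] → (Fin K → ℝ) → ℕ → ℝ := fun i P x l => (es (fun j => dbl (u P) (S P x) j ^ l) (i.1 + 1)).re
  have hreal : ∀ (i : Fin K) (P : F[X]) (x : Fin K → ℝ), (∀ j, |x j| ≤ r₀) → ∀ l : ℕ,
      es (fun j => dbl (u P) (S P x) j ^ l) (i.1 + 1) = (p i P x l : ℂ) := by
    intro i P x hx l
    apply Complex.ext
    · rw [Complex.ofReal_re]
    · rw [Complex.ofReal_im]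
      exact (hS P x hx).im _ _
  let Y : Fin K → Type := fun i =>
    {R : Finset (Fin g ⊕ Fin g) // R ∈ powersetCard (i.1 + 1) (univ : Finset (Fin g ⊕ Fin g))}
  let hYf : ∀ i, Fintype (Y i) := fun i =>
    Finset.Subtype.fintype (powersetCard (i.1 + 1) (univ : Finset (Fin g ⊕ Fin g)))
  let γ : (i : Fin K) → F[X] → (Fin K → ℝ) → Y i → ℂ := fun i P x R => ∏ j ∈ R.1, dbl (u P) (S P x) j
  have hYc : ∀ i, Fintype.card (Y i) ≤ 4 ^ g := by
    intro i
    have h1 : Fintype.card (Y i) = (powersetCard (i.1 + 1) (univ : Finset (Fin g ⊕ Fin g))).card :=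
      Fintype.card_coe _
    rw [h1, card_powersetCard, card_univ, Fintype.card_sum, Fintype.card_fin]
    refine (Nat.choose_le_two_pow _ _).trans ?_
    rw [← two_mul, pow_mul]
    norm_num
  have hγp : ∀ (i : Fin K) (P : F[X]) (x : Fin K → ℝ), (∀ j, |x j| ≤ r₀) → ∀ l : ℕ,
      ∑ y, γ i P x y ^ l = (p i P x l : ℂ) := by
    intro i P x hx l
    rw [← hreal i P x hx l, ← es_pow_sum]
  have hγn : ∀ (i : Fin K) (P : F[X]) (x : Fin K → ℝ), (∀ j, |x j| ≤ r₀) → ∀ y, ‖γ i P x y‖ ≤ u P ^ (i.1 + 1) := by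
    intro i P x hx y
    have h1 := norm_prod_dbl (hu1 P) (hS P x hx).norm y.1
    rwa [(mem_powersetCard.1 y.2).2] at h1
  have hloc : Loc F (Fin K) r₀ B ϑ N p := by
    refine ⟨?_, ?_, ?_⟩
    · intro i P x _ _ hx
      show (es (fun j => dbl (u P) (S P x) j ^ 1) (i.1 + 1)).re = x i
      simp only [pow_one]
      rw [(hS P x hx).ext (i.1 + 1) (by omega) (by have := i.2; omega), Complex.ofReal_re, hex1]
    · intro i P x l t _ _ ht hx h2 h3
      show |(es (fun j => dbl (u P) (S P x) j ^ l) (i.1 + 1)).re| ≤ B * t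
      have ht0 : 0 ≤ t := (abs_nonneg _).trans (hx i)
      refine (Complex.abs_re_le_norm _).trans ?_
      refine ((hS P x (fun j => (hx j).trans ht)).mid t ht0 ht (hex2 x t hx) (i.1 + 1) l (by omega)
        (by have := i.2; omega) (by omega) (hNg l h3)).trans ?_
      apply mul_le_mul_of_nonneg_right _ ht0
      have h4 : ((g : ℝ) + 1) ^ l ≤ ((g : ℝ) + 1) ^ N := pow_le_pow_right₀ (by linarith) (by omega)
      have h5 : (((g : ℝ) + 1) ^ l) ^ 2 ≤ (((g : ℝ) + 1) ^ N) ^ 2 := pow_le_pow_left₀ (by positivity) h4 2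
      have h6 : 2 * ((K : ℝ) + 1) * (((g : ℝ) + 1) ^ l) ^ 2 ≤ 2 * ((K : ℝ) + 1) * (((g : ℝ) + 1) ^ N) ^ 2 :=
        mul_le_mul_of_nonneg_left h5 (by positivity)
      have h7 : (0 : ℝ) ≤ 4 ^ g := by positivity
      linarith
    · intro i P x l _ _ hx _
      have h1 : |p i P x l| = ‖∑ y, γ i P x y ^ l‖ := by
        rw [hγp i P x hx l, Complex.norm_real, Real.norm_eq_abs]
      rw [h1]
      have hc : ((Fintype.card (Y i) : ℕ) : ℝ) ≤ B := by
        have h2 : ((Fintype.card (Y i) : ℕ) : ℝ) ≤ 4 ^ g := by exact_mod_cast hYc i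
        have h3 : 0 ≤ 2 * ((K : ℝ) + 1) * (((g : ℝ) + 1) ^ N) ^ 2 := by positivity
        linarith
      calc ‖∑ y, γ i P x y ^ l‖ ≤ ∑ y, ‖γ i P x y ^ l‖ := norm_sum_le _ _
        _ ≤ ∑ _y : Y i, (u P ^ (i.1 + 1)) ^ l := by
            apply sum_le_sum
            intro y _
            rw [norm_pow]
            exact pow_le_pow_left₀ (norm_nonneg _) (hγn i P x hx y) l
        _ = (Fintype.card (Y i) : ℝ) * (u P ^ (i.1 + 1)) ^ l := by
            rw [sum_const, card_univ, nsmul_eq_mul]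
        _ ≤ B * qq F ^ (ϑ * (l * P.natDegree)) :=
            mul_le_mul hc (huK P _ l (by have := i.2; omega))
              (pow_nonneg (pow_nonneg (hu0 P).le _) _) (by linarith)
  have hγ : ∀ (i : Fin K) (P : F[X]) (x : Fin K → ℝ), P.Monic → Irreducible P → (∀ j, |x j| ≤ r₀) →
      (∀ y, ‖γ i P x y‖ ≤ qq F ^ (ϑ * P.natDegree)) ∧
        ∀ k : ℕ, 1 ≤ k → ∑ y, γ i P x y ^ k = (p i P x k : ℂ) := by
    intro i P x _ _ hx
    refine ⟨?_, fun k _ => hγp i P x hx k⟩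
    intro y
    have h1 := huK P (i.1 + 1) 1 (by have := i.2; omega)
    rw [pow_one, Nat.cast_one, one_mul] at h1
    exact (hγn i P x hx y).trans h1
  have hdat : Dat F (Fin K) ν M (fun i χ => D (i.1 + 1) χ) (fun i χ => ε (i.1 + 1) χ) :=
    ⟨fun i Q l χ hχ => (hD _ (by omega) (by have := i.2; omega) Q l χ hχ).1,
      fun i Q l χ hχ => (hD _ (by omega) (by have := i.2; omega) Q l χ hχ).2,
      fun i χ => (hε _ (by omega) (by have := i.2; omega) χ).1,
      fun i χ => (hε _ (by omega) (by have := i.2; omega) χ).2⟩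
  obtain ⟨a, ha, hmain⟩ := hENG F (Fin K) p hloc Y γ hγ ν M hν hM _ _ hdat
  have har : ∀ (P : F[X]), P.Monic → Irreducible P → ∀ i, |a P i| ≤ r₀ := fun P h1 h2 i => (ha P i h1 h2).1
  refine ⟨fun P => S P (a P), ?_, ?_, ?_⟩
  · intro P h1 h2
    have h3 := hS P (a P) (har P h1 h2)
    exact ⟨h3.norm, h3.prod, h3.cj⟩
  · intro k hk1 hk2 Q l χ hχ
    let i : Fin K := ⟨k - 1, by omega⟩
    have e : i.1 + 1 = k := Nat.sub_add_cancel hk1
    obtain ⟨L, h1, h2, h3⟩ := hmain i Q l χ hχ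
    simp only [e] at h1
    refine ⟨L, h1, h2, ?_⟩
    intro s hs1 hs2
    have h4 := h3 s hs1 (by rw [hϑ]; linarith)
    refine (congrArg (fun G => HasProd G (L s)) ?_).mp h4
    funext P
    unfold extFactor
    rw [← e]
    exact prod_coe_sort (powersetCard (i.1 + 1) (univ : Finset (Fin g ⊕ Fin g)))
      (fun R => (1 - (∏ j ∈ R, dbl (u P.1) (S P.1 (a P.1)) j) * (χ P.1 * absPow P.1 s))⁻¹)
  · intro r k hr hk1 hkK Q l χ hχ s hs1 hs2
    set η : ℝ := 1 / 2 - 4 / (ν : ℝ) with hη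
    have hη0 : 0 < η := by
      have h1 : (9 : ℝ) ≤ ν := by exact_mod_cast hν
      have h2 : 4 / (ν : ℝ) ≤ 4 / 9 := by
        rw [div_le_div_iff₀ (by linarith) (by norm_num)]
        linarith
      rw [hη]
      linarith
    let YY : Type := {R : Fin r → Finset (Fin g ⊕ Fin g) // R ∈ Fintype.piFinset (fun i => powersetCard (k i)
      (univ : Finset (Fin g ⊕ Fin g)))}
    let hYYf : Fintype YY := Finset.Subtype.fintype (Fintype.piFinset (fun i => powersetCard (k i)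
      (univ : Finset (Fin g ⊕ Fin g))))
    let G : Place F → YY → ℂ := fun P R => ∏ i, ∏ j ∈ R.1 i, dbl (u P.1) (S P.1 (a P.1)) j
    have hkle : ∀ i, k i ≤ K := fun i => (single_le_sum (fun _ _ => Nat.zero_le _) (mem_univ i)).trans hkK
    have hsum : ∀ (P : Place F) (m : ℕ), ∑ y, G P y ^ m =
        ∏ i, es (fun j => dbl (u P.1) (S P.1 (a P.1)) j ^ m) (k i) := by
      intro P m
      have h1 : ∑ y, G P y ^ m = ∑ R ∈ Fintype.piFinset (fun i => powersetCard (k i)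
          (univ : Finset (Fin g ⊕ Fin g))), (∏ i, ∏ j ∈ R i, dbl (u P.1) (S P.1 (a P.1)) j) ^ m :=
        sum_coe_sort (Fintype.piFinset (fun i => powersetCard (k i) (univ : Finset (Fin g ⊕ Fin g))))
          (fun R => (∏ i, ∏ j ∈ R i, dbl (u P.1) (S P.1 (a P.1)) j) ^ m)
      rw [h1]
      have h2 : ∀ i, es (fun j => dbl (u P.1) (S P.1 (a P.1)) j ^ m) (k i) =
          ∑ R ∈ powersetCard (k i) (univ : Finset (Fin g ⊕ Fin g)), ∏ j ∈ R, dbl (u P.1) (S P.1 (a P.1)) j ^ m :=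
        fun i => rfl
      simp_rw [h2]
      rw [prod_univ_sum]
      apply sum_congr rfl
      intro R _
      rw [← prod_pow]
      apply prod_congr rfl
      intro i _
      rw [prod_pow]
    have hmid : ∀ (P : Place F) (m : ℕ), 1 ≤ m → m < N → ‖∑ y, G P y ^ m‖ ≤
        B ^ r * qq F ^ (-(9 / 5 * η * CT.hdeg P)) := by
      intro P m hm1 hm2
      have h3 := hS P.1 (a P.1) (har P.1 P.2.1 P.2.2)
      set t : ℝ := r₀ * qq F ^ (-(9 / 10 * η * P.1.natDegree)) with ht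
      have hqt0 : 0 < qq F ^ (-(9 / 10 * η * P.1.natDegree)) := by positivity
      have hqt1 : qq F ^ (-(9 / 10 * η * P.1.natDegree)) ≤ 1 := by
        apply Real.rpow_le_one_of_one_le_of_nonpos hq1
        have : 0 ≤ 9 / 10 * η * P.1.natDegree := by positivity
        linarith
      have ht0 : 0 ≤ t := by positivity
      have ht1 : t ≤ r₀ := by
        rw [ht]
        nlinarith
      have hax : ∀ i, |a P.1 i| ≤ t := fun i => (ha P.1 i P.2.1 P.2.2).2
      have hfac : ∀ i, ‖es (fun j => dbl (u P.1) (S P.1 (a P.1)) j ^ m) (k i)‖ ≤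
          B * qq F ^ (-(9 / 10 * η * P.1.natDegree)) := by
        intro i
        refine (h3.mid t ht0 ht1 (hex2 _ t hax) (k i) m (hk1 i) (hkle i) hm1 (hNg m hm2)).trans ?_
        have h4 : ((g : ℝ) + 1) ^ m ≤ ((g : ℝ) + 1) ^ N := pow_le_pow_right₀ (by linarith) (by omega)
        have h5 : (((g : ℝ) + 1) ^ m) ^ 2 ≤ (((g : ℝ) + 1) ^ N) ^ 2 := pow_le_pow_left₀ (by positivity) h4 2
        have h6 : 2 * ((K : ℝ) + 1) * (((g : ℝ) + 1) ^ m) ^ 2 ≤ B := by
          have h7 : 2 * ((K : ℝ) + 1) * (((g : ℝ) + 1) ^ m) ^ 2 ≤ 2 * ((K : ℝ) + 1) * (((g : ℝ) + 1) ^ N) ^ 2 :=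
            mul_le_mul_of_nonneg_left h5 (by positivity)
          have h8 : (0 : ℝ) ≤ 4 ^ g := by positivity
          linarith
        calc 2 * ((K : ℝ) + 1) * (((g : ℝ) + 1) ^ m) ^ 2 * t ≤ B * t := mul_le_mul_of_nonneg_right h6 ht0
          _ = B * (r₀ * qq F ^ (-(9 / 10 * η * P.1.natDegree))) := rfl
          _ ≤ B * (1 * qq F ^ (-(9 / 10 * η * P.1.natDegree))) := by
              apply mul_le_mul_of_nonneg_left _ (by linarith)
              exact mul_le_mul_of_nonneg_right hr1 hqt0.le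
          _ = _ := by rw [one_mul]
      rw [hsum, norm_prod]
      calc ∏ i, ‖es (fun j => dbl (u P.1) (S P.1 (a P.1)) j ^ m) (k i)‖ ≤
            ∏ _i : Fin r, (B * qq F ^ (-(9 / 10 * η * P.1.natDegree))) :=
            prod_le_prod (fun _ _ => norm_nonneg _) (fun i _ => hfac i)
        _ = B ^ r * (qq F ^ (-(9 / 10 * η * P.1.natDegree))) ^ r := by
            rw [prod_const, card_univ, Fintype.card_fin, mul_pow]
        _ ≤ B ^ r * (qq F ^ (-(9 / 10 * η * P.1.natDegree))) ^ 2 := by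
            apply mul_le_mul_of_nonneg_left _ (by positivity)
            exact pow_le_pow_of_le_one hqt0.le hqt1 hr
        _ = B ^ r * qq F ^ (-(9 / 5 * η * CT.hdeg P)) := by
            congr 1
            rw [← Real.rpow_natCast, ← Real.rpow_mul hq0.le]
            congr 1
            unfold CT.hdeg
            push_cast
            ring
    have hGn : ∀ (P : Place F) (y : YY), ‖G P y‖ ≤ qq F ^ (ϑ * CT.hdeg P) := by
      intro P y
      have h3 := hS P.1 (a P.1) (har P.1 P.2.1 P.2.2)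
      show ‖∏ i, ∏ j ∈ y.1 i, dbl (u P.1) (S P.1 (a P.1)) j‖ ≤ _
      rw [norm_prod]
      have h4 : ∏ i, ‖∏ j ∈ y.1 i, dbl (u P.1) (S P.1 (a P.1)) j‖ ≤ ∏ i, u P.1 ^ k i := by
        apply prod_le_prod (fun _ _ => norm_nonneg _)
        intro i _
        have h5 := norm_prod_dbl (hu1 P.1) h3.norm (y.1 i)
        have h6 := Fintype.mem_piFinset.1 y.2 i
        rwa [(mem_powersetCard.1 h6).2] at h5
      refine h4.trans ?_
      rw [prod_pow_eq_pow_sum]
      have h5 := huK P.1 (∑ i, k i) 1 hkK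
      rw [pow_one, Nat.cast_one, one_mul] at h5
      exact h5
    have hfin := conv (q := qq F) (A := 4) hq2 (by norm_num) (CT.hplaces (F := F)) G (B := B ^ r) (lm := 9 / 5 * η)
      (ϑ := ϑ) (σ := s.re) (N := N) (by positivity) hmid hGn (fun P => χ P.1 * absPow P.1 s) (by
        intro P
        rw [norm_mul]
        have h5 : ‖absPow P.1 s‖ = qq F ^ (-(s.re * CT.hdeg P)) := by
          unfold absPow
          have hqC : (Fintype.card F : ℂ) = ((qq F : ℝ) : ℂ) := by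
            unfold qq
            push_cast
            rfl
          rw [hqC, Complex.norm_cpow_eq_rpow_re_of_pos hq0]
          congr 1
          unfold CT.hdeg
          simp
        rw [h5]
        calc ‖χ P.1‖ * qq F ^ (-(s.re * CT.hdeg P)) ≤ 1 * qq F ^ (-(s.re * CT.hdeg P)) :=
              mul_le_mul_of_nonneg_right (norm_le_one hχ.1 _) (by positivity)
          _ = _ := one_mul _) (by linarith) (by linarith) (by rw [hϑ]; linarith) (by
        have h6 : (N : ℝ) * (1 / 2 - ϑ) ≤ N * (s.re - ϑ) :=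
          mul_le_mul_of_nonneg_left (by linarith) (Nat.cast_nonneg N)
        linarith)
    refine (congrArg Summable ?_).mp hfin
    funext P
    congr 2
    unfold prodFactor
    exact prod_coe_sort (Fintype.piFinset (fun i => powersetCard (k i) (univ : Finset (Fin g ⊕ Fin g))))
      (fun R => (1 - (∏ i, ∏ j ∈ R i, dbl (u P.1) (S P.1 (a P.1)) j) * (χ P.1 * absPow P.1 s))⁻¹)

theorem extStm : ExtStm := t_ext eng

end Pool.Agent.Q284.T3
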