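import Pool.Agent.Q284.GE.Stm

/-!
# Elementary symmetric functions of powers

`es α k` is the `k`-th elementary symmetric function of a finite family.
-/

set_option autoImplicit false

open Finset Polynomial ComplexConjugate

namespace Pool.Agent.Q284.T3

section Es

variable {ι κ : Type} [Fintype ι] [Fintype κ]

/-- the `k`-th elementary symmetric function -/
noncomputable def es (α : ι → ℂ) (k : ℕ) : ℂ := ∑ S ∈ powersetCard k (univ : Finset ι), ∏ j ∈ S, α j

/-- the generating polynomial -/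
noncomputable def gp (α : ι → ℂ) : ℂ[X] := ∏ j, (1 + C (α j) * X)

theorem coeff_gp (α : ι → ℂ) (k : ℕ) : (gp α).coeff k = es α k := by
  classical
  have h1 : gp α = ∑ S ∈ (univ : Finset ι).powerset, C (∏ j ∈ S, α j) * X ^ S.card := by
    unfold gp
    rw [prod_one_add]
    apply sum_congr rfl
    intro S _
    rw [prod_mul_distrib, prod_const, map_prod]
  rw [h1, finsetSum_coeff]
  simp_rw [coeff_C_mul_X_pow]
  unfold es
  rw [← sum_filter]
  apply sum_congr _ (fun _ _ => rfl)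
  ext S
  simp only [mem_filter, mem_powerset, subset_univ, true_and, mem_powersetCard]
  exact eq_comm

theorem es_zero (α : ι → ℂ) : es α 0 = 1 := by
  unfold es
  simp

theorem es_elim (α : ι → ℂ) (β : κ → ℂ) (k : ℕ) :
    es (Sum.elim α β) k = ∑ p ∈ antidiagonal k, es α p.1 * es β p.2 := by
  rw [← coeff_gp]
  have h : gp (Sum.elim α β) = gp α * gp β := by
    unfold gp
    rw [Fintype.prod_sum_type]
    rfl
  rw [h, coeff_mul]
  simp_rw [coeff_gp]

theorem es_smul (c : ℂ) (α : ι → ℂ) (k : ℕ) : es (fun j => c * α j) k = c ^ k * es α k := by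
  unfold es
  rw [mul_sum]
  apply sum_congr rfl
  intro S hS
  rw [prod_mul_distrib, prod_const, (mem_powersetCard.1 hS).2]

theorem es_pow_sum (α : ι → ℂ) (k l : ℕ) :
    ∑ S : {S : Finset ι // S ∈ powersetCard k (univ : Finset ι)}, (∏ j ∈ S.1, α j) ^ l =
      es (fun j => α j ^ l) k := by
  classical
  unfold es
  rw [← sum_coe_sort (powersetCard k (univ : Finset ι))]
  apply sum_congr rfl
  intro S _
  rw [prod_pow]

/-- `∏_ζ G(ζ X) = ∏_j (1 - (-α_j)^l X^l)` -/
theorem prod_gp (α : ι → ℂ) {l : ℕ} (hl : 0 < l) :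
    ∏ ζ ∈ nthRootsFinset l (1 : ℂ), gp (fun j => ζ * α j) = expand ℂ l (gp (fun j => -(-α j) ^ l)) := by
  classical
  have h1 : ∀ j, ∏ ζ ∈ nthRootsFinset l (1 : ℂ), (1 + C (ζ * α j) * X : ℂ[X]) = 1 + C (-(-α j) ^ l) * X ^ l := by
    intro j
    apply Polynomial.funext
    intro z
    rw [eval_prod]
    simp only [eval_add, eval_one, eval_mul, eval_C, eval_X, eval_pow]
    have h2 := (Complex.isPrimitiveRoot_exp l hl.ne').pow_sub_pow_eq_prod_sub_mul 1 (-α j * z) hl
    have h3 : ∀ ζ : ℂ, 1 - ζ * (-α j * z) = 1 + ζ * α j * z := fun ζ => by ring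
    simp only [h3, one_pow] at h2
    rw [← h2, mul_pow]
    ring
  unfold gp
  rw [prod_comm, map_prod]
  apply prod_congr rfl
  intro j _
  rw [h1 j]
  simp

theorem norm_coeff_prod {N : ℕ} {τ : ℝ} (h0 : 0 ≤ τ) (h1 : τ ≤ 1) {σ : Type} (s : Finset σ) (P : σ → ℂ[X])
    (hz : ∀ i ∈ s, (P i).coeff 0 = 1) (hP : ∀ i ∈ s, ∀ k : ℕ, 1 ≤ k → k ≤ N → ‖(P i).coeff k‖ ≤ τ) :
    (∏ i ∈ s, P i).coeff 0 = 1 ∧
      ∀ k : ℕ, 1 ≤ k → k ≤ N → ‖(∏ i ∈ s, P i).coeff k‖ ≤ ((N : ℝ) + 1) ^ s.card * τ := by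
  classical
  induction s using Finset.induction_on with
  | empty =>
    refine ⟨by simp, ?_⟩
    intro k hk _
    rw [prod_empty, coeff_one, if_neg (by omega), norm_zero]
    positivity
  | insert i s hi ih =>
    obtain ⟨ih1, ih2⟩ := ih (fun j hj => hz j (mem_insert_of_mem hj)) (fun j hj => hP j (mem_insert_of_mem hj))
    rw [prod_insert hi, card_insert_of_notMem hi]
    constructor
    · rw [mul_coeff_zero, ih1, hz i (mem_insert_self i s), one_mul]
    · intro k hk1 hk2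
      rw [coeff_mul, Nat.sum_antidiagonal_eq_sum_range_succ_mk, sum_range_succ]
      have h2 : ∀ a ∈ range k, ‖(P i).coeff a * (∏ j ∈ s, P j).coeff (k - a)‖ ≤ ((N : ℝ) + 1) ^ s.card * τ := by
        intro a ha
        rw [mem_range] at ha
        rw [norm_mul]
        have h3 : ‖(P i).coeff a‖ ≤ 1 := by
          rcases Nat.eq_zero_or_pos a with h | h
          · rw [h, hz i (mem_insert_self i s), norm_one]
          · exact (hP i (mem_insert_self i s) a h (by omega)).trans h1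
        have h4 := ih2 (k - a) (by omega) (by omega)
        calc ‖(P i).coeff a‖ * ‖(∏ j ∈ s, P j).coeff (k - a)‖ ≤ 1 * (((N : ℝ) + 1) ^ s.card * τ) :=
              mul_le_mul h3 h4 (norm_nonneg _) (by norm_num)
          _ = _ := one_mul _
      refine (norm_add_le _ _).trans ?_
      have h5 : ‖∑ a ∈ range k, (P i).coeff a * (∏ j ∈ s, P j).coeff (k - a)‖ ≤
          k * (((N : ℝ) + 1) ^ s.card * τ) := by
        refine (norm_sum_le _ _).trans ((sum_le_card_nsmul _ _ _ h2).trans ?_)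
        rw [card_range, nsmul_eq_mul]
      have h6 : ‖(P i).coeff k * (∏ j ∈ s, P j).coeff (k - k)‖ ≤ τ := by
        rw [Nat.sub_self, ih1, mul_one]
        exact hP i (mem_insert_self i s) k hk1 hk2
      have h7 : (1 : ℝ) ≤ ((N : ℝ) + 1) ^ s.card := one_le_pow₀ (by linarith [Nat.cast_nonneg (α := ℝ) N])
      have h8 : (k : ℝ) ≤ N := by exact_mod_cast hk2
      have h9 : 0 ≤ ((N : ℝ) + 1) ^ s.card * τ := by positivity
      rw [pow_succ]
      nlinarith [mul_le_mul_of_nonneg_right h8 h9, mul_le_mul_of_nonneg_right h7 h0]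

/-- the elementary symmetric functions of the `l`-th powers are small if the first ones of `α` are small -/
theorem es_pow_le {N : ℕ} {τ : ℝ} (h0 : 0 ≤ τ) (h1 : τ ≤ 1) (α : ι → ℂ)
    (hα : ∀ k : ℕ, 1 ≤ k → k ≤ N → ‖es α k‖ ≤ τ) {l a : ℕ} (hl : 0 < l) (ha : 1 ≤ a) (hla : l * a ≤ N) :
    ‖es (fun j => α j ^ l) a‖ ≤ ((N : ℝ) + 1) ^ l * τ := by
  classical
  have hroot : ∀ ζ ∈ nthRootsFinset l (1 : ℂ), ‖ζ‖ = 1 := by
    intro ζ hζ
    rw [mem_nthRootsFinset hl] at hζ
    exact Complex.norm_eq_one_of_pow_eq_one hζ hl.ne'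
  obtain ⟨_, h2⟩ := norm_coeff_prod (N := N) h0 h1 (nthRootsFinset l (1 : ℂ)) (fun ζ => gp (fun j => ζ * α j))
    (fun ζ _ => by rw [coeff_gp, es_zero]) (fun ζ hζ k hk1 hk2 => by
      rw [coeff_gp, es_smul, norm_mul, norm_pow, hroot ζ hζ, one_pow, one_mul]
      exact hα k hk1 hk2)
  have h3 := h2 (l * a) (by nlinarith) hla
  rw [prod_gp α hl, mul_comm l a, coeff_expand_mul hl, coeff_gp,
    (Complex.isPrimitiveRoot_exp l hl.ne').card_nthRootsFinset] at h3
  have h4 : es (fun j => -(-α j) ^ l) a = (-(-1) ^ l) ^ a * es (fun j => α j ^ l) a := by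
    rw [← es_smul]
    congr 1
    funext j
    rw [neg_pow (α j)]
    ring
  rw [h4, norm_mul, norm_pow, norm_neg, norm_pow, norm_neg, norm_one, one_pow, one_pow, one_mul] at h3
  exact h3

end Es

end Pool.Agent.Q284.T3
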