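import Pool.Agent.Q284.T3.Sym
import Pool.Agent.Q182.GE.LFA
import Pool.Agent.Q96.GE.TGT
import Pool.Agent.Q150.GE.CIR

/-!
# Classes with exponent whose first exterior powers have prescribed traces
-/

set_option autoImplicit false

open Finset Polynomial ComplexConjugate

namespace Pool.Agent.Q284.T3

/-- the solution of `∑_{a+b=n} w_a v^b w_b = x_n`, `w_0 = 1` -/
noncomputable def wsol (v : ℝ) (x : ℕ → ℝ) : ℕ → ℝ
  | 0 => 1
  | (k + 1) => (x (k + 1) - ∑ a : Fin k, wsol v x (a.1 + 1) * (v ^ (k - a.1) * wsol v x (k - a.1))) / (1 + v ^ (k + 1))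
decreasing_by all_goals (have := a.2; omega)

theorem wsol_zero (v : ℝ) (x : ℕ → ℝ) : wsol v x 0 = 1 := by rw [wsol]

theorem wsol_eq {v : ℝ} (hv : 0 ≤ v) (x : ℕ → ℝ) {n : ℕ} (hn : 1 ≤ n) :
    ∑ p ∈ antidiagonal n, wsol v x p.1 * (v ^ p.2 * wsol v x p.2) = x n := by
  obtain ⟨k, rfl⟩ : ∃ k, n = k + 1 := ⟨n - 1, by omega⟩
  have h1 : (0 : ℝ) < 1 + v ^ (k + 1) := by positivity
  have h2 : wsol v x (k + 1) * (1 + v ^ (k + 1)) =
      x (k + 1) - ∑ a : Fin k, wsol v x (a.1 + 1) * (v ^ (k - a.1) * wsol v x (k - a.1)) := by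
    rw [wsol, div_mul_cancel₀ _ h1.ne']
  rw [Nat.sum_antidiagonal_eq_sum_range_succ_mk, sum_range_succ', sum_range_succ]
  have h3 : ∑ a ∈ range k, wsol v x (a + 1) * (v ^ (k + 1 - (a + 1)) * wsol v x (k + 1 - (a + 1))) =
      ∑ a : Fin k, wsol v x (a.1 + 1) * (v ^ (k - a.1) * wsol v x (k - a.1)) := by
    rw [Fin.sum_univ_eq_sum_range (fun a => wsol v x (a + 1) * (v ^ (k - a) * wsol v x (k - a))) k]
    apply sum_congr rfl
    intro a _
    have : k + 1 - (a + 1) = k - a := by omega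
    rw [this]
  simp only [] at *
  rw [h3, Nat.sub_self, Nat.sub_zero, wsol_zero, pow_zero]
  linarith

theorem wsol_le {v : ℝ} (hv : 0 ≤ v) (hv1 : v ≤ 1) {x : ℕ → ℝ} {K : ℕ} {t : ℝ} (ht : 0 ≤ t) (hK : 4 * K * t ≤ 1)
    (hx : ∀ k : ℕ, 1 ≤ k → k ≤ K → |x k| ≤ t) : ∀ k : ℕ, 1 ≤ k → k ≤ K → |wsol v x k| ≤ 2 * t := by
  intro k
  induction k using Nat.strong_induction_on with
  | _ k ih =>
    intro h1 h2
    obtain ⟨n, rfl⟩ : ∃ n, k = n + 1 := ⟨k - 1, by omega⟩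
    rw [wsol, abs_div, abs_of_pos (by positivity : (0 : ℝ) < 1 + v ^ (n + 1))]
    have h3 : ∀ a ∈ (univ : Finset (Fin n)), |wsol v x (a.1 + 1) * (v ^ (n - a.1) * wsol v x (n - a.1))| ≤
        4 * t ^ 2 := by
      intro a _
      have ha := a.2
      rw [abs_mul, abs_mul, abs_of_nonneg (pow_nonneg hv _)]
      have h4 := ih (a.1 + 1) (by omega) (by omega) (by omega)
      have h5 := ih (n - a.1) (by omega) (by omega) (by omega)
      have h6 : v ^ (n - a.1) ≤ 1 := pow_le_one₀ hv hv1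
      calc |wsol v x (a.1 + 1)| * (v ^ (n - a.1) * |wsol v x (n - a.1)|) ≤ (2 * t) * (1 * (2 * t)) := by
            apply mul_le_mul h4 _ (by positivity) (by positivity)
            exact mul_le_mul h6 h5 (abs_nonneg _) (by norm_num)
        _ = 4 * t ^ 2 := by ring
    have h4 : |∑ a : Fin n, wsol v x (a.1 + 1) * (v ^ (n - a.1) * wsol v x (n - a.1))| ≤ n * (4 * t ^ 2) := by
      refine (abs_sum_le_sum_abs _ _).trans ((sum_le_card_nsmul _ _ _ h3).trans ?_)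
      rw [card_univ, Fintype.card_fin, nsmul_eq_mul]
    have h5 : (n : ℝ) ≤ K := by exact_mod_cast (by omega : n ≤ K)
    have h6 : (n : ℝ) * (4 * t ^ 2) ≤ t := by nlinarith [mul_nonneg ht ht]
    have h7 : |x (n + 1) - ∑ a : Fin n, wsol v x (a.1 + 1) * (v ^ (n - a.1) * wsol v x (n - a.1))| ≤ 2 * t := by
      refine (abs_sub _ _).trans ?_
      have := hx (n + 1) h1 h2
      linarith
    refine (div_le_self (abs_nonneg _) ?_).trans h7
    have : 0 ≤ v ^ (n + 1) := by positivity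
    linarith

/-- the eigenvalues `u β_j` and `u⁻¹ β_j` -/
noncomputable def dbl {g : ℕ} (u : ℝ) (β : Fin g → ℂ) : Fin g ⊕ Fin g → ℂ :=
  Sum.elim (fun j => (u : ℂ) * β j) (fun j => ((u⁻¹ : ℝ) : ℂ) * β j)

/-- the classes -/
structure Cls (g K : ℕ) (u : ℝ) (x : ℕ → ℝ) (β : Fin g → ℂ) : Prop where
  norm : ∀ j, ‖β j‖ = 1
  prod : ∏ j, β j = 1
  cj : ∀ w : ℂ, ∏ j, (1 - conj (β j) * w) = ∏ j, (1 - β j * w)
  ext : ∀ k : ℕ, 1 ≤ k → k ≤ K → es (dbl u β) k = (x k : ℂ)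
  im : ∀ k l : ℕ, (es (fun j => dbl u β j ^ l) k).im = 0
  mid : ∀ t : ℝ, 0 ≤ t → t ≤ 1 / (4 * g) → (∀ k : ℕ, 1 ≤ k → k ≤ K → |x k| ≤ t) → ∀ k l : ℕ, 1 ≤ k → k ≤ K →
    1 ≤ l → 2 * (l * K) < g → ‖es (fun j => dbl u β j ^ l) k‖ ≤ 2 * (K + 1) * (((g : ℝ) + 1) ^ l) ^ 2 * t

theorem cls {g K : ℕ} (hK : 1 ≤ K) (hg : 2 * K < g) {u : ℝ} (hu : 1 ≤ u) {x : ℕ → ℝ}
    (hx : ∀ k : ℕ, 1 ≤ k → k ≤ K → |x k| ≤ 1 / (4 * g)) : ∃ β : Fin g → ℂ, Cls g K u x β := by
  classical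
  have hg0 : (0 : ℝ) < g := by exact_mod_cast (by omega : 0 < g)
  have hKg : (K : ℝ) ≤ g := by exact_mod_cast (by omega : K ≤ g)
  have hu0 : 0 < u := by linarith
  have huc : (u : ℂ) ≠ 0 := by exact_mod_cast hu0.ne'
  have hui : u⁻¹ ≤ 1 := inv_le_one_of_one_le₀ hu
  set v : ℝ := (u⁻¹) ^ 2 with hv
  have hv0 : 0 ≤ v := by positivity
  have hv1 : v ≤ 1 := pow_le_one₀ (by positivity) hui
  set w : ℕ → ℝ := wsol v x with hw
  have hwle : ∀ t : ℝ, 0 ≤ t → t ≤ 1 / (4 * g) → (∀ k : ℕ, 1 ≤ k → k ≤ K → |x k| ≤ t) →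
      ∀ k : ℕ, 1 ≤ k → k ≤ K → |w k| ≤ 2 * t := by
    intro t ht ht1 hxt
    apply wsol_le hv0 hv1 ht _ hxt
    rw [le_div_iff₀ (by positivity)] at ht1
    nlinarith
  let y : ℕ → ℝ := fun k => if k ≤ K then u⁻¹ ^ k * w k else 0
  have hy : ∀ k : ℕ, 1 ≤ k → |y k| ≤ 1 / (2 * g) := by
    intro k hk
    show |if k ≤ K then u⁻¹ ^ k * w k else 0| ≤ _
    split_ifs with h
    · rw [abs_mul, abs_of_nonneg (by positivity : (0 : ℝ) ≤ u⁻¹ ^ k)]
      have h1 := hwle (1 / (4 * g)) (by positivity) le_rfl hx k hk h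
      have h2 : u⁻¹ ^ k ≤ 1 := pow_le_one₀ (by positivity) hui
      calc u⁻¹ ^ k * |w k| ≤ 1 * (2 * (1 / (4 * g))) := mul_le_mul h2 h1 (abs_nonneg _) (by norm_num)
        _ = 1 / (2 * g) := by
          field_simp
          norm_num
    · rw [abs_zero]
      positivity
  obtain ⟨β, b1, b2, b3, b4, b5, b6⟩ := Pool.Agent.Q182.GE.t_LFA Pool.Agent.Q150.GE.t_CIR Pool.Agent.Q96.GE.t_TGT g
    (by omega) (fun i => y (i.1 + 1)) (fun i => hy _ (by omega))
  have hes : ∀ k : ℕ, 1 ≤ k → 2 * k < g → es β k = (y k : ℂ) := by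
    intro k hk1 hk2
    have h1 := b4 ⟨k - 1, by omega⟩
    have e : k - 1 + 1 = k := by omega
    simp only [e] at h1
    exact h1
  have hesu : ∀ k : ℕ, 1 ≤ k → 2 * k < g → es (fun j => (u : ℂ) * β j) k = if k ≤ K then (w k : ℂ) else 0 := by
    intro k hk1 hk2
    rw [es_smul, hes k hk1 hk2]
    show (u : ℂ) ^ k * (((if k ≤ K then u⁻¹ ^ k * w k else 0 : ℝ)) : ℂ) = _
    split_ifs with h
    · push_cast
      rw [← mul_assoc, ← mul_pow, mul_inv_cancel₀ huc, one_pow, one_mul]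
    · simp
  have hinv : ∀ (l k : ℕ), es (fun j => (((u⁻¹ : ℝ) : ℂ) * β j) ^ l) k =
      ((v : ℂ) ^ l) ^ k * es (fun j => ((u : ℂ) * β j) ^ l) k := by
    intro l k
    rw [← es_smul]
    congr 1
    funext j
    rw [hv]
    push_cast
    rw [← mul_pow]
    congr 1
    field_simp
  have hpow : ∀ l : ℕ, (fun j => dbl u β j ^ l) =
      Sum.elim (fun j => ((u : ℂ) * β j) ^ l) (fun j => (((u⁻¹ : ℝ) : ℂ) * β j) ^ l) := by
    intro l
    funext j
    rcases j with j | j <;> rfl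
  have himu : ∀ (l k : ℕ), (es (fun j => ((u : ℂ) * β j) ^ l) k).im = 0 := by
    intro l k
    have h1 : (fun j => ((u : ℂ) * β j) ^ l) = fun j => ((u ^ l : ℝ) : ℂ) * β j ^ l := by
      funext j
      rw [mul_pow]
      push_cast
      rfl
    rw [h1, es_smul, ← Complex.ofReal_pow, Complex.im_ofReal_mul]
    have h2 := (b5 k l).1
    have h3 : es (fun j => β j ^ l) k = GE.esym (fun j => β j ^ l) k := rfl
    rw [h3, h2, mul_zero]
  refine ⟨β, b1, b2, b3, ?_, ?_, ?_⟩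
  · intro k hk1 hk2
    have h1 : es (dbl u β) k = ∑ p ∈ antidiagonal k, (w p.1 : ℂ) * ((v : ℂ) ^ p.2 * (w p.2 : ℂ)) := by
      unfold dbl
      rw [es_elim]
      apply sum_congr rfl
      intro p hp
      rw [HasAntidiagonal.mem_antidiagonal] at hp
      have h2 : ∀ a : ℕ, a ≤ K → es (fun j => (u : ℂ) * β j) a = (w a : ℂ) := by
        intro a ha
        rcases Nat.eq_zero_or_pos a with h | h
        · rw [h, es_zero, hw, wsol_zero]
          simp
        · rw [hesu a h (by omega), if_pos ha]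
      have h3 := hinv 1 p.2
      simp only [pow_one] at h3
      rw [h2 p.1 (by omega), h3, h2 p.2 (by omega)]
    rw [h1, ← wsol_eq hv0 x hk1]
    push_cast
    rfl
  · intro k l
    rw [hpow, es_elim, Complex.im_sum]
    apply sum_eq_zero
    intro p _
    rw [hinv, ← Complex.ofReal_pow, ← Complex.ofReal_pow, Complex.mul_im, Complex.im_ofReal_mul,
      Complex.re_ofReal_mul, himu, himu]
    ring
  · intro t ht ht1 hxt k l hk1 hk2 hl hlK
    have hg1 : (1 : ℝ) ≤ g := by exact_mod_cast (by omega : 1 ≤ g)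
    have ht2 : 2 * t ≤ 1 := by
      rw [le_div_iff₀ (by positivity)] at ht1
      nlinarith
    have hsm : ∀ k : ℕ, 1 ≤ k → k ≤ l * K → ‖es (fun j => (u : ℂ) * β j) k‖ ≤ 2 * t := by
      intro k hk1 hk2
      rw [hesu k hk1 (by omega)]
      split_ifs with h
      · rw [Complex.norm_real, Real.norm_eq_abs]
        exact hwle t ht ht1 hxt k hk1 h
      · rw [norm_zero]
        linarith
    set C : ℝ := ((g : ℝ) + 1) ^ l with hC
    have hC1 : 1 ≤ C := one_le_pow₀ (by linarith)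
    have hlg : ((l * K : ℕ) : ℝ) ≤ g := by exact_mod_cast (by omega : l * K ≤ g)
    have hA : ∀ a : ℕ, 1 ≤ a → a ≤ k → ‖es (fun j => ((u : ℂ) * β j) ^ l) a‖ ≤ C * (2 * t) := by
      intro a ha1 ha2
      refine (es_pow_le (N := l * K) (by linarith) ht2 _ hsm (by omega) ha1
        (Nat.mul_le_mul_left l (by omega))).trans ?_
      apply mul_le_mul_of_nonneg_right _ (by linarith)
      rw [hC]
      apply pow_le_pow_left₀ (by positivity)
      linarith
    have hA' : ∀ a : ℕ, a ≤ k → ‖es (fun j => ((u : ℂ) * β j) ^ l) a‖ ≤ C := by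
      intro a ha
      rcases Nat.eq_zero_or_pos a with h | h
      · rw [h, es_zero, norm_one]
        exact hC1
      · refine (hA a h ha).trans ?_
        nlinarith
    have hB' : ∀ a : ℕ, ‖es (fun j => (((u⁻¹ : ℝ) : ℂ) * β j) ^ l) a‖ ≤ ‖es (fun j => ((u : ℂ) * β j) ^ l) a‖ := by
      intro a
      rw [hinv, norm_mul, norm_pow, norm_pow, Complex.norm_real, Real.norm_eq_abs, abs_of_nonneg hv0]
      have h1 : (v ^ l) ^ a ≤ 1 := pow_le_one₀ (by positivity) (pow_le_one₀ hv0 hv1)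
      calc (v ^ l) ^ a * ‖es (fun j => ((u : ℂ) * β j) ^ l) a‖ ≤ 1 * _ :=
            mul_le_mul_of_nonneg_right h1 (norm_nonneg _)
        _ = _ := one_mul _
    rw [hpow, es_elim]
    refine (norm_sum_le _ _).trans ?_
    have hterm : ∀ p ∈ antidiagonal k, ‖es (fun j => ((u : ℂ) * β j) ^ l) p.1 *
        es (fun j => (((u⁻¹ : ℝ) : ℂ) * β j) ^ l) p.2‖ ≤ C ^ 2 * (2 * t) := by
      intro p hp
      rw [HasAntidiagonal.mem_antidiagonal] at hp
      rw [norm_mul]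
      rcases Nat.eq_zero_or_pos p.1 with h | h
      · have h1 := (hB' p.2).trans (hA p.2 (by omega) (by omega))
        have h2 := hA' p.1 (by omega)
        calc _ ≤ C * (C * (2 * t)) := mul_le_mul h2 h1 (norm_nonneg _) (by linarith)
          _ = _ := by ring
      · have h1 := hA p.1 h (by omega)
        have h2 := (hB' p.2).trans (hA' p.2 (by omega))
        calc _ ≤ (C * (2 * t)) * C := mul_le_mul h1 h2 (norm_nonneg _) (by positivity)
          _ = _ := by ring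
    refine (sum_le_card_nsmul _ _ _ hterm).trans ?_
    rw [Nat.card_antidiagonal, nsmul_eq_mul]
    have h9 : ((k + 1 : ℕ) : ℝ) ≤ K + 1 := by exact_mod_cast (by omega : k + 1 ≤ K + 1)
    calc ((k + 1 : ℕ) : ℝ) * (C ^ 2 * (2 * t)) ≤ (K + 1) * (C ^ 2 * (2 * t)) :=
          mul_le_mul_of_nonneg_right h9 (by positivity)
      _ = _ := by ring

end Pool.Agent.Q284.T3
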